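import Pool.Agent.H84.FK.Targets

set_option autoImplicit false

namespace Pool.Agent.H81.FK

open Pool.Agent.H84.FK

theorem two_normal {G : Type} [Group G] {B B0 : Subgroup G} (h : Two B B0) {t x : G}
    (ht : t ∈ B) (hx : x ∈ B0) : t * x * t⁻¹ ∈ B0 := by
  by_cases ht0 : t ∈ B0
  · exact B0.mul_mem (B0.mul_mem ht0 hx) (B0.inv_mem ht0)
  · apply h.2 _ (B.mul_mem ht (h.1 hx)) _ (B.inv_mem ht)
    · intro h1
      exact ht0 (by simpa using B0.mul_mem h1 (B0.inv_mem hx))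
    · intro h1
      exact ht0 (by simpa using B0.inv_mem h1)

theorem central {G : Type} [Group G] {B B0 : Subgroup G} (h : Two B B0) (hab : Ab B0) {t y : G}
    (ht : t ∈ B) (ht0 : t ∉ B0) (hy : y ∈ B0) (hty : t * y = y * t) :
    ∀ b ∈ B, b * y = y * b := by
  intro b hb
  by_cases hb0 : b ∈ B0
  · exact hab b hb0 y hy
  · have h1 : b * t⁻¹ ∈ B0 := by
      apply h.2 _ hb _ (B.inv_mem ht) hb0
      intro h2
      exact ht0 (by simpa using B0.inv_mem h2)
    have h3 : b = b * t⁻¹ * t := by group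
    calc b * y = b * t⁻¹ * (t * y) := by group
      _ = b * t⁻¹ * y * t := by rw [hty]; group
      _ = y * (b * t⁻¹) * t := by rw [hab _ h1 _ hy]
      _ = y * b := by group

theorem cent_le {G : Type} [Group G] (hC2 : T_C2) {A B B0 : Subgroup G} (hce : CE G A B B0)
    {y : G} (hyB : y ∈ B) (hy1 : y ≠ 1) (hc : ∀ b ∈ B, b * y = y * b) {g : G}
    (hg : g * y = y * g) : g ∈ B := by
  have hpow : ∀ b : G, b * y = y * b → ∀ x ∈ Subgroup.zpowers y,
      b * x * b⁻¹ ∈ Subgroup.zpowers y := by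
    rintro b hb x ⟨n, rfl⟩
    have h1 : Commute b y := hb
    have h2 : b * y ^ n * b⁻¹ = y ^ n := by
      rw [(h1.zpow_right n).eq]; group
    change b * y ^ n * b⁻¹ ∈ _
    rw [h2]
    exact ⟨n, rfl⟩
  apply hC2 G A B B0 hce (Subgroup.zpowers y)
  · intro h0
    rw [Subgroup.zpowers_eq_bot] at h0
    exact hy1 h0
  · rw [Subgroup.zpowers_le]
    exact hyB
  · intro b hb x hx
    exact hpow b (hc b hb) x hx
  · exact hpow g hg

theorem pf_ta (hC2 : T_C2) (hC3 : T_C3) (hC4 : T_C4) (hFIX : T_FIX) : T_TA := by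
  intro G _ A B B0 M hce hov hMB hTI h2A x hxM hxB hxx
  by_contra hx1
  have hfin : Finite G := hce.fin
  have hxB0 : x ∈ B0 := hMB x hxM hxB
  obtain ⟨⟨t, htB, htB0⟩, _, _⟩ := hC4 G A B B0 hce
  have h2B0 : 2 ∣ Nat.card B0 := by
    have h1 : orderOf (⟨x, hxB0⟩ : B0) = 2 := by
      apply orderOf_eq_prime
      · rw [pow_two]
        exact Subtype.ext hxx
      · intro h
        exact hx1 (congrArg Subtype.val h)
    rw [← h1]
    exact orderOf_dvd_natCard _
  obtain ⟨z, hzB0, hzz, hz1, htz⟩ := hFIX G B0 t hce.abB h2B0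
    (fun x hx => two_normal hce.two htB hx) (hce.two.2 t htB t htB htB0 htB0)
  have hzc := central hce.two hce.abB htB htB0 hzB0 htz
  -- an element of two power order outside `B0`
  obtain ⟨a, m, hm, ham⟩ := Nat.exists_eq_two_pow_mul_odd (orderOf_pos t).ne'
  set t2 : G := t ^ m with ht2
  have ht2p : t2 ^ (2 ^ a) = 1 := by
    rw [ht2, ← pow_mul, mul_comm, ← ham, pow_orderOf_eq_one]
  have ht2B : t2 ∈ B := B.pow_mem htB m
  have htt : t * t ∈ B0 := hce.two.2 t htB t htB htB0 htB0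
  have ht2B0 : t2 ∉ B0 := by
    intro h
    obtain ⟨j, hj⟩ := hm
    rw [ht2, hj, pow_succ, pow_mul] at h
    have h1 : (t ^ 2) ^ j ∈ B0 := B0.pow_mem (by rw [pow_two]; exact htt) j
    exact htB0 ((Subgroup.mul_mem_cancel_left _ h1).mp h)
  -- the two part of `B0`
  let V : Subgroup G :=
    { carrier := {v | v ∈ B0 ∧ ∃ k : ℕ, v ^ (2 ^ k) = 1}
      mul_mem' := by
        rintro u v ⟨hu, k, hk⟩ ⟨hv, l, hl⟩
        refine ⟨B0.mul_mem hu hv, k + l, ?_⟩
        have h1 : Commute u v := hce.abB u hu v hv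
        rw [h1.mul_pow, pow_add, pow_mul, hk, one_pow, one_mul, mul_comm, pow_mul, hl, one_pow]
      one_mem' := ⟨B0.one_mem, 0, one_pow _⟩
      inv_mem' := by
        rintro u ⟨hu, k, hk⟩
        exact ⟨B0.inv_mem hu, k, by rw [inv_pow, hk, inv_one]⟩ }
  have hVp : IsPGroup 2 V := by
    rintro ⟨v, hv, k, hk⟩
    exact ⟨k, Subtype.ext hk⟩
  have htp : IsPGroup 2 (Subgroup.zpowers t2) := by
    rintro ⟨v, n, rfl⟩
    refine ⟨a, Subtype.ext ?_⟩
    change (t2 ^ n) ^ (2 ^ a) = 1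
    rw [← zpow_natCast, ← zpow_mul, mul_comm, zpow_mul, zpow_natCast, ht2p, one_zpow]
  have hnorm : Subgroup.zpowers t2 ≤ Subgroup.normalizer (V : Set G) := by
    rw [Subgroup.zpowers_le, Subgroup.mem_normalizer_iff]
    have key : ∀ s ∈ B, ∀ v ∈ V, s * v * s⁻¹ ∈ V := by
      rintro s hs v ⟨hv, k, hk⟩
      refine ⟨two_normal hce.two hs hv, k, ?_⟩
      rw [conj_pow, hk]; group
    intro v
    refine ⟨key t2 ht2B v, fun h => ?_⟩
    have h1 := key t2⁻¹ (B.inv_mem ht2B) _ h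
    have h2 : t2⁻¹ * (t2 * v * t2⁻¹) * t2⁻¹⁻¹ = v := by group
    rwa [h2] at h1
  have hT := IsPGroup.to_sup_of_normal_right' htp hVp hnorm
  obtain ⟨S, hS⟩ := hT.exists_le_sylow
  have hVS : V ≤ (S : Subgroup G) := le_sup_right.trans hS
  have hxS : x ∈ (S : Subgroup G) := hVS ⟨hxB0, 1, by rw [pow_one, pow_two]; exact hxx⟩
  have hzS : z ∈ (S : Subgroup G) := hVS ⟨hzB0, 1, by rw [pow_one, pow_two]; exact hzz⟩
  have htS : t2 ∈ (S : Subgroup G) := hS (Subgroup.mem_sup_left (Subgroup.mem_zpowers t2))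
  have hSn : Nontrivial (S : Subgroup G) := by
    rw [Subgroup.nontrivial_iff_exists_ne_one]
    exact ⟨x, hxS, hx1⟩
  have hcen := S.isPGroup'.center_nontrivial
  obtain ⟨⟨⟨w, hwS⟩, hwc⟩, hw1⟩ := exists_ne (1 : Subgroup.center (S : Subgroup G))
  have hw1' : w ≠ 1 := by
    rintro rfl
    exact hw1 rfl
  have hwcomm : ∀ s ∈ (S : Subgroup G), s * w = w * s := by
    intro s hs
    have := (Subgroup.mem_center_iff.mp hwc) ⟨s, hs⟩
    exact congrArg Subtype.val this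
  have hwB : w ∈ B := cent_le hC2 hce (hce.two.1 hzB0) hz1 hzc (hwcomm z hzS).symm
  by_cases hwB0 : w ∈ B0
  · have hwcen := central hce.two hce.abB ht2B ht2B0 hwB0 (hwcomm t2 htS)
    have hSB : (S : Subgroup G) ≤ B := fun s hs =>
      cent_le hC2 hce hwB hw1' hwcen (hwcomm s hs)
    have : Fact (Nat.Prime 2) := ⟨Nat.prime_two⟩
    obtain ⟨⟨y, hyA⟩, hy⟩ := exists_prime_orderOf_dvd_card' (G := A) 2 h2A
    have hyp : IsPGroup 2 (Subgroup.zpowers y) := by
      have hy2 : y ^ 2 = 1 := by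
        have h1 := pow_orderOf_eq_one (⟨y, hyA⟩ : A)
        rw [hy] at h1
        exact congrArg Subtype.val h1
      rintro ⟨v, n, rfl⟩
      refine ⟨1, Subtype.ext ?_⟩
      change (y ^ n) ^ (2 ^ 1) = 1
      rw [pow_one, ← zpow_natCast, ← zpow_mul, mul_comm, zpow_mul, zpow_natCast, hy2, one_zpow]
    obtain ⟨Q, hQ⟩ := hyp.exists_le_sylow
    obtain ⟨g, hg⟩ := MulAction.exists_smul_eq G Q S
    have h1 : g * y * g⁻¹ ∈ (S : Subgroup G) := by
      rw [← hg]
      have h2 : y ∈ (Q : Subgroup G) := hQ (Subgroup.mem_zpowers y)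
      exact Subgroup.smul_mem_pointwise_smul y (MulAut.conj g) _ h2
    have h3 := hC3 G A B B0 hce g⁻¹ y (g * y * g⁻¹) hyA (hSB h1) (by group)
    have h4 : orderOf (⟨y, hyA⟩ : A) = 1 := by
      rw [orderOf_eq_one_iff]
      exact Subtype.ext h3
    rw [hy] at h4
    norm_num at h4
  · apply hx1
    apply hTI w hwB hwB0 x hxM hxB
    have h1 : w * x * w⁻¹ = x := by
      rw [← hwcomm x hxS]; group
    rw [h1]
    exact hxM

end Pool.Agent.H81.FK
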